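import Mathlib
import Pool.Agent.Lib.MP_85963d_gt.Interfaces

/-!
# Averages along the circles `x rot(i,t)`, weight components
-/

set_option autoImplicit false

open MeasureTheory Set Filter Topology Quaternion
open scoped Real ContDiff

namespace Pool.Agent.MP85963d.H79

open SF

section avg

variable {E : Type*} [NormedAddCommGroup E] [NormedSpace ℝ E]

theorem continuousOn_avg {F : ℍ → ℝ} (hF : ContinuousOn F {0}ᶜ) {g : ℝ → E} (hg : Continuous g)
    (a b : ℝ) : ContinuousOn (fun x => ∫ t in a..b, F (x * rot qI t) • g t) {0}ᶜ := by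
  rw [continuousOn_iff_continuous_domRestrict]
  have h1 : Continuous (Function.uncurry fun (x : ({0}ᶜ : Set ℍ)) (t : ℝ) =>
      F (x.1 * rot qI t) • g t) := by
    apply Continuous.smul
    · apply hF.comp_continuous ((continuous_subtype_val.comp continuous_fst).mul
        ((continuous_rot qI).comp continuous_snd))
      rintro ⟨x, t⟩
      exact rrot_ne_zero isImUnit_I x.2 t
    · exact hg.comp continuous_snd
  exact intervalIntegral.continuous_parametric_intervalIntegral_of_continuous' h1 a b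

theorem continuous_comp_rot {F : ℍ → E} (hF : ContinuousOn F {0}ᶜ) {x : ℍ} (hx : x ≠ 0) :
    Continuous fun t => F (x * rot qI t) := by
  apply hF.comp_continuous (by
    exact continuous_const.mul (continuous_rot qI))
  intro t
  exact rrot_ne_zero isImUnit_I hx t

theorem integral_shell_mulE {ρ : ℍ} (h : ‖ρ‖ = 1) (f : ℍ → E) :
    ∫ x in shell, f (x * ρ) = ∫ x in shell, f x := by
  have h1 := (rmul ρ h).measurePreserving
  have h2 := h1.setIntegral_preimage_emb (rmul ρ h).toMeasurableEquiv.measurableEmbedding f shell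
  have h3 : (rmul ρ h) ⁻¹' shell = shell := by
    ext x; exact mul_mem_shell h
  rw [h3] at h2
  exact h2

theorem integral_shell_avgE [CompleteSpace E] {a : ℍ} (h : IsImUnit a) {g : ℍ → E}
    (hg : ContinuousOn g {0}ᶜ) {T : ℝ} (hT : 0 ≤ T) :
    ∫ x in shell, (∫ t in (0:ℝ)..T, g (x * rot a t)) = T • ∫ x in shell, g x := by
  have hcont : ContinuousOn (fun p : ℍ × ℝ => g (p.1 * rot a p.2)) (shell ×ˢ Icc 0 T) := by
    apply hg.comp
    · exact (continuous_fst.mul ((continuous_rot a).comp continuous_snd)).continuousOn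
    · rintro ⟨x, t⟩ ⟨hx, -⟩
      exact shell_subset ((mul_mem_shell (norm_rot h t)).2 hx)
  have hint : IntegrableOn (fun p : ℍ × ℝ => g (p.1 * rot a p.2)) (shell ×ˢ Icc 0 T)
      (volume.prod volume) :=
    hcont.integrableOn_compact (isCompact_shell.prod isCompact_Icc)
  have hint2 : Integrable (Function.uncurry fun (x : ℍ) (t : ℝ) => g (x * rot a t))
      ((volume.restrict shell).prod (volume.restrict (Ioc 0 T))) := by
    rw [Measure.prod_restrict]
    exact hint.mono_set (Set.prod_mono le_rfl Ioc_subset_Icc_self)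
  calc ∫ x in shell, (∫ t in (0:ℝ)..T, g (x * rot a t))
      = ∫ x in shell, (∫ t in Ioc (0:ℝ) T, g (x * rot a t)) := by
        simp_rw [intervalIntegral.integral_of_le hT]
    _ = ∫ t in Ioc (0:ℝ) T, (∫ x in shell, g (x * rot a t)) := integral_integral_swap hint2
    _ = ∫ t in Ioc (0:ℝ) T, (∫ x in shell, g x) := by
        congr 1
        funext t
        exact integral_shell_mulE (norm_rot h t) g
    _ = T • ∫ x in shell, g x := by
        rw [setIntegral_const]
        simp [Measure.real, hT]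

theorem integrableOn_shellE {g : ℍ → E} (hg : ContinuousOn g {0}ᶜ) : IntegrableOn g shell :=
  (hg.mono shell_subset).integrableOn_compact isCompact_shell

end avg

theorem rot_add_two_pi (a : ℍ) (t : ℝ) : rot a (t + 2 * π) = - rot a t := by
  have e : (t + 2 * π) / 2 = t / 2 + π := by ring
  simp only [rot, e, Real.cos_add_pi, Real.sin_add_pi]
  module

theorem rot_add_pi {a : ℍ} (h : IsImUnit a) (t : ℝ) : rot a (t + π) = rot a t * a := by
  rw [rot_add h, rot_pi]

theorem Cts.even {F : ℍ → ℝ} (hF : Cts F) {x : ℍ} (hx : x ≠ 0) : F (-x) = F x := by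
  have := hF.hom (-1) x (by norm_num) hx
  simpa using this

theorem Cts.rot_periodic {F : ℍ → ℝ} (hF : Cts F) {x : ℍ} (hx : x ≠ 0) :
    Function.Periodic (fun t : ℝ => F (x * rot qI t)) (2 * π) := by
  intro t
  show F (x * rot qI (t + 2 * π)) = F (x * rot qI t)
  rw [rot_add_two_pi, mul_neg, Cts.even hF (rrot_ne_zero isImUnit_I hx t)]

theorem cts_SF (F : SF) : Cts F := ⟨F.continuousOn, fun _ x hr _ => F.hom hr x⟩

/-! ### weight components -/

theorem cmp_eq (b : ℤ) (F : ℍ → ℝ) (x : ℍ) :
    cmp b F x = (1 / (2 * π) : ℂ) * ∫ t in (0:ℝ)..(2 * π),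
      F (x * rot qI t) • Complex.exp (-(b * t * Complex.I)) := by
  simp only [cmp, Complex.real_smul]

theorem continuousOn_cmp (b : ℤ) {F : ℍ → ℝ} (hF : ContinuousOn F {0}ᶜ) :
    ContinuousOn (cmp b F) {0}ᶜ := by
  have : cmp b F = fun x => (1 / (2 * π) : ℂ) * ∫ t in (0:ℝ)..(2 * π),
      F (x * rot qI t) • Complex.exp (-(b * t * Complex.I)) := funext (cmp_eq b F)
  rw [this]
  exact continuousOn_const.mul (continuousOn_avg hF (by fun_prop) _ _)

theorem exp_int_periodic (b : ℤ) (t : ℝ) :
    Complex.exp (-(b * (t + 2 * π : ℝ) * Complex.I)) = Complex.exp (-(b * t * Complex.I)) := by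
  rw [Complex.exp_eq_exp_iff_exists_int]
  refine ⟨-b, ?_⟩
  push_cast
  ring

theorem cmp_rot (b : ℤ) {F : ℍ → ℝ} (hF : Cts F) {x : ℍ} (hx : x ≠ 0) (s : ℝ) :
    cmp b F (x * rot qI s) = Complex.exp (b * s * Complex.I) * cmp b F x := by
  have hper : Function.Periodic (fun t : ℝ => F (x * rot qI t) •
      Complex.exp (-(b * t * Complex.I))) (2 * π) := by
    intro t
    have h1 := Cts.rot_periodic hF hx t
    simp only at h1
    show F (x * rot qI (t + 2 * π)) • Complex.exp (-(b * (t + 2 * π : ℝ) * Complex.I)) = _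
    rw [h1, exp_int_periodic]
  rw [cmp_eq, cmp_eq]
  have h1 : ∫ t in (0:ℝ)..(2 * π), F (x * rot qI s * rot qI t) • Complex.exp (-(b * t * Complex.I))
      = Complex.exp (b * s * Complex.I) * ∫ t in (0:ℝ)..(2 * π),
        F (x * rot qI (t + s)) • Complex.exp (-(b * (t + s : ℝ) * Complex.I)) := by
    rw [← intervalIntegral.integral_const_mul]
    congr 1
    funext t
    rw [mul_assoc, ← rot_add isImUnit_I, add_comm s t, mul_smul_comm, ← Complex.exp_add]
    congr 2
    push_cast
    ring
  rw [h1, intervalIntegral.integral_comp_add_right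
    (fun t => F (x * rot qI t) • Complex.exp (-(b * (t : ℝ) * Complex.I))) s]
  have h2 := hper.intervalIntegral_add_eq s 0
  rw [zero_add, add_comm (2 * π) s, h2, zero_add]
  ring

theorem conj_cmp (b : ℤ) (F : ℍ → ℝ) (x : ℍ) :
    (starRingEnd ℂ) (cmp b F x) = cmp (-b) F x := by
  have hpi2 : (1 / (2 * π) : ℂ) = ((1 / (2 * π) : ℝ) : ℂ) := by push_cast; ring
  rw [cmp_eq, cmp_eq, map_mul, hpi2, Complex.conj_ofReal]
  congr 1
  · rw [intervalIntegral.integral_of_le (by positivity), intervalIntegral.integral_of_le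
      (by positivity), ← integral_conj]
    congr 1
    funext t
    simp only [Complex.real_smul, map_mul, Complex.conj_ofReal, ← Complex.exp_conj, map_neg,
      Complex.conj_I, map_intCast]
    congr 2
    push_cast
    ring

theorem cmp_zero (F : ℍ → ℝ) (x : ℍ) : cmp 0 F x = (avgI F x : ℂ) := by
  rw [cmp, avgI]
  simp only [Int.cast_zero, zero_mul, neg_zero, Complex.exp_zero, mul_one]
  rw [intervalIntegral.integral_ofReal]
  push_cast
  ring

theorem cmp_re (b : ℤ) {F : ℍ → ℝ} (hF : ContinuousOn F {0}ᶜ) {x : ℍ} (hx : x ≠ 0) :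
    (cmp b F x).re = (1 / (2 * π)) * ∫ t in (0:ℝ)..(2 * π),
      F (x * rot qI t) * Real.cos (b * t) := by
  rw [cmp_eq]
  have h1 : (1 / (2 * π) : ℂ) = ((1 / (2 * π) : ℝ) : ℂ) := by push_cast; ring
  have hi : IntervalIntegrable (fun t : ℝ => F (x * rot qI t) •
      Complex.exp (-(b * t * Complex.I))) volume 0 (2 * π) := by
    apply Continuous.intervalIntegrable
    apply (continuous_comp_rot hF hx).smul
    fun_prop
  have h2 : (∫ t in (0:ℝ)..(2 * π), F (x * rot qI t) • Complex.exp (-(b * t * Complex.I))).re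
      = ∫ t in (0:ℝ)..(2 * π), F (x * rot qI t) * Real.cos (b * t) := by
    have := Complex.reCLM.intervalIntegral_comp_comm hi
    simp only [Complex.reCLM_apply] at this
    rw [← this]
    congr 1
    funext t
    rw [Complex.real_smul, Complex.re_ofReal_mul]
    congr 1
    have e : -((b:ℂ) * t * Complex.I) = ((-(b * t) : ℝ) : ℂ) * Complex.I := by push_cast; ring
    rw [e, Complex.exp_ofReal_mul_I_re, Real.cos_neg]
  rw [h1, Complex.re_ofReal_mul, h2]

theorem integral_cmp {b : ℤ} {c : ℍ → ℂ} (hc : ContinuousOn c {0}ᶜ)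
    (hrot : ∀ x : ℍ, x ≠ 0 → ∀ s : ℝ, c (x * rot qI s) = Complex.exp (b * s * Complex.I) * c x)
    {F : ℍ → ℝ} (hF : ContinuousOn F {0}ᶜ) :
    ∫ x in shell, c x * (starRingEnd ℂ) (cmp b F x) = ∫ x in shell, c x * F x := by
  have hcF : ContinuousOn (fun x => c x * F x) {0}ᶜ :=
    hc.mul (Complex.continuous_ofReal.comp_continuousOn hF)
  have h1 := integral_shell_avgE (E := ℂ) isImUnit_I hcF (T := 2 * π) (by positivity)
  have hpi : (2 * π : ℂ) ≠ 0 := by
    have : (π : ℂ) ≠ 0 := by exact_mod_cast Real.pi_ne_zero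
    simpa using this
  have h2 : ∫ x in shell, c x * F x = (1 / (2 * π) : ℂ) *
      ∫ x in shell, (∫ t in (0:ℝ)..(2 * π), c (x * rot qI t) * F (x * rot qI t)) := by
    rw [h1, Complex.real_smul]
    push_cast
    field_simp
  rw [h2, ← integral_const_mul]
  apply setIntegral_congr_fun measurableSet_shell
  intro x hx
  have hx0 := ne_zero_of_mem_shell hx
  simp only
  rw [conj_cmp, cmp_eq, mul_left_comm, ← intervalIntegral.integral_const_mul]
  congr 1
  apply intervalIntegral.integral_congr
  intro t _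
  simp only
  rw [hrot x hx0 t, Complex.real_smul]
  push_cast
  rw [neg_mul, neg_mul, neg_neg]
  ring

end Pool.Agent.MP85963d.H79
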