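import Mathlib
import Pool.Agent.Lib.MP_85963d_gt.H79.Avg

/-!
# Fejer means along the circles `x rot(i,t)`
-/

set_option autoImplicit false

open MeasureTheory Set Filter Topology Quaternion
open scoped Real ContDiff

namespace Pool.Agent.MP85963d.H79

open SF

/-- Fejer kernel in the double angle -/
noncomputable def fk (K : ℕ) (t : ℝ) : ℝ :=
  (1 / (K:ℝ)) * ∑ i ∈ Finset.range K, ∑ j ∈ Finset.range K, Real.cos (2 * ((i:ℝ) - j) * t)

theorem continuous_fk (K : ℕ) : Continuous (fk K) := by
  unfold fk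
  fun_prop

theorem fk_eq (K : ℕ) (t : ℝ) : fk K t = (1 / (K:ℝ)) *
    ((∑ i ∈ Finset.range K, Real.cos (2 * i * t)) ^ 2
      + (∑ i ∈ Finset.range K, Real.sin (2 * i * t)) ^ 2) := by
  rw [fk, sq, sq, Finset.sum_mul_sum, Finset.sum_mul_sum, ← Finset.sum_add_distrib]
  congr 1
  apply Finset.sum_congr rfl
  intro i _
  rw [← Finset.sum_add_distrib]
  apply Finset.sum_congr rfl
  intro j _
  rw [← Real.cos_sub]
  congr 1
  ring

theorem fk_nonneg (K : ℕ) (t : ℝ) : 0 ≤ fk K t := by
  rw [fk_eq]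
  positivity

theorem sum_cos (K : ℕ) (t : ℝ) : 2 * Real.sin t * ∑ i ∈ Finset.range K, Real.cos (2 * i * t)
    = Real.sin ((2 * K - 1) * t) + Real.sin t := by
  induction K with
  | zero => simp
  | succ K ih =>
    rw [Finset.sum_range_succ, mul_add, ih]
    push_cast
    have e1 : (2 * ((K:ℝ) + 1) - 1) * t = 2 * K * t + t := by ring
    have e2 : (2 * (K:ℝ) - 1) * t = 2 * K * t - t := by ring
    rw [e1, e2, Real.sin_add, Real.sin_sub]
    ring

theorem sum_sin (K : ℕ) (t : ℝ) : 2 * Real.sin t * ∑ i ∈ Finset.range K, Real.sin (2 * i * t)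
    = Real.cos t - Real.cos ((2 * K - 1) * t) := by
  induction K with
  | zero => simp
  | succ K ih =>
    rw [Finset.sum_range_succ, mul_add, ih]
    push_cast
    have e1 : (2 * ((K:ℝ) + 1) - 1) * t = 2 * K * t + t := by ring
    have e2 : (2 * (K:ℝ) - 1) * t = 2 * K * t - t := by ring
    rw [e1, e2, Real.cos_add, Real.cos_sub]
    ring

theorem sin_sq_mul_fk (K : ℕ) (t : ℝ) : Real.sin t ^ 2 * fk K t ≤ 1 / K := by
  have h1 := sum_cos K t
  have h2 := sum_sin K t
  set C := ∑ i ∈ Finset.range K, Real.cos (2 * i * t)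
  set S := ∑ i ∈ Finset.range K, Real.sin (2 * i * t)
  set α := (2 * (K:ℝ) - 1) * t
  have h3 : 4 * (Real.sin t ^ 2 * (C ^ 2 + S ^ 2)) ≤ 4 := by
    have e : 4 * (Real.sin t ^ 2 * (C ^ 2 + S ^ 2))
        = (2 * Real.sin t * C) ^ 2 + (2 * Real.sin t * S) ^ 2 := by ring
    rw [e, h1, h2]
    have h5 := Real.sin_sq_add_cos_sq α
    have h6 := Real.sin_sq_add_cos_sq t
    have h7 := Real.neg_one_le_cos (α + t)
    rw [Real.cos_add] at h7
    nlinarith
  have h4 : Real.sin t ^ 2 * (C ^ 2 + S ^ 2) ≤ 1 := by linarith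
  rw [fk_eq]
  calc Real.sin t ^ 2 * (1 / (K:ℝ) * (C ^ 2 + S ^ 2))
      = (1 / (K:ℝ)) * (Real.sin t ^ 2 * (C ^ 2 + S ^ 2)) := by ring
    _ ≤ (1 / (K:ℝ)) * 1 := by gcongr
    _ = 1 / K := by ring

theorem integral_cos_int (n : ℤ) : ∫ t in (0:ℝ)..(2 * π), Real.cos (n * t)
    = if n = 0 then 2 * π else 0 := by
  split_ifs with h
  · subst h; simp
  · have hn : (n:ℝ) ≠ 0 := by exact_mod_cast h
    rw [intervalIntegral.integral_comp_mul_left (fun t => Real.cos t) hn, integral_cos]
    have : (n:ℝ) * (2 * π) = ((2 * n : ℤ) : ℝ) * π := by push_cast; ring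
    rw [this, Real.sin_int_mul_pi]
    simp

theorem integral_fk {K : ℕ} (hK : 0 < K) : ∫ t in (0:ℝ)..(2 * π), fk K t = 2 * π := by
  have hK' : (K:ℝ) ≠ 0 := by positivity
  unfold fk
  rw [intervalIntegral.integral_const_mul, intervalIntegral.integral_finsetSum
    (fun i _ => Continuous.intervalIntegrable (by fun_prop) _ _)]
  have h1 : ∀ i ∈ Finset.range K, ∫ t in (0:ℝ)..(2 * π), ∑ j ∈ Finset.range K,
      Real.cos (2 * ((i:ℝ) - j) * t) = 2 * π := by
    intro i hi
    rw [intervalIntegral.integral_finsetSum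
      (fun i _ => Continuous.intervalIntegrable (by fun_prop) _ _)]
    have h2 : ∀ j ∈ Finset.range K, ∫ t in (0:ℝ)..(2 * π), Real.cos (2 * ((i:ℝ) - j) * t)
        = if i = j then 2 * π else 0 := by
      intro j _
      have h3 := integral_cos_int (2 * ((i:ℤ) - j))
      push_cast at h3
      rw [h3]
      by_cases hij : i = j
      · subst hij; simp
      · rw [if_neg hij, if_neg]
        omega
    rw [Finset.sum_congr rfl h2, Finset.sum_ite_eq (Finset.range K) i, if_pos hi]
  rw [Finset.sum_congr rfl h1, Finset.sum_const, Finset.card_range, nsmul_eq_mul]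
  field_simp

theorem fk_neg (K : ℕ) (t : ℝ) : fk K (-t) = fk K t := by
  unfold fk
  simp only [mul_neg, Real.cos_neg]

theorem fk_periodic (K : ℕ) : Function.Periodic (fk K) (2 * π) := by
  intro t
  unfold fk
  congr 1
  apply Finset.sum_congr rfl
  intro i _
  apply Finset.sum_congr rfl
  intro j _
  have : 2 * ((i:ℝ) - j) * (t + 2 * π) = 2 * ((i:ℝ) - j) * t + ((2 * ((i:ℤ) - j) : ℤ) : ℝ) * (2 * π) := by
    push_cast; ring
  rw [this, Real.cos_add_int_mul_two_pi]

theorem abs_sub_le_sin {G : ℝ → ℝ} {B : ℝ} (hper : ∀ t, G (t + π) = G t)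
    (hlip : ∀ t, |G t - G 0| ≤ B * |t|) (t : ℝ) : |G t - G 0| ≤ π / 2 * B * |Real.sin t| := by
  have hB : 0 ≤ B := by
    have := hlip 1
    have h2 := abs_nonneg (G 1 - G 0)
    simp at this; linarith
  have hp : Function.Periodic (fun t => |G t - G 0| - π / 2 * B * |Real.sin t|) π := by
    intro t
    simp only [hper, Real.sin_add_pi, abs_neg]
  obtain ⟨y, hy, hty⟩ := hp.exists_mem_Ico Real.pi_pos t (-(π / 2))
  have hty' : |G t - G 0| - π / 2 * B * |Real.sin t|
      = |G y - G 0| - π / 2 * B * |Real.sin y| := hty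
  have h1 : |y| ≤ π / 2 := by
    rw [abs_le]
    exact ⟨hy.1, by have := hy.2; linarith⟩
  have h2 : |y| ≤ π / 2 * |Real.sin y| := by
    have h3 := Real.mul_abs_le_abs_sin h1
    have hpi := Real.pi_pos
    calc |y| = π / 2 * (2 / π * |y|) := by field_simp
      _ ≤ π / 2 * |Real.sin y| := by gcongr
  have h4 := hlip y
  have h5 : B * |y| ≤ B * (π / 2 * |Real.sin y|) := by gcongr
  nlinarith

theorem fk_error {G : ℝ → ℝ} {B : ℝ} (hG : Continuous G) (hper : ∀ t, G (t + π) = G t)
    (hlip : ∀ t, |G t - G 0| ≤ B * |t|) {K : ℕ} (hK : 0 < K) {ε : ℝ} (hε : 0 < ε) :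
    |G 0 - (1 / (2 * π)) * ∫ t in (0:ℝ)..(2 * π), G t * fk K t|
      ≤ π / 2 * B * (ε / 2 + 1 / (2 * ε * K)) := by
  have hB : 0 ≤ B := by
    have := hlip 1
    have h2 := abs_nonneg (G 1 - G 0)
    simp at this; linarith
  have hpi := Real.pi_pos
  have hKr : (0:ℝ) < K := by exact_mod_cast hK
  have hcf := continuous_fk K
  have h0 : G 0 - (1 / (2 * π)) * ∫ t in (0:ℝ)..(2 * π), G t * fk K t
      = (1 / (2 * π)) * ∫ t in (0:ℝ)..(2 * π), (G 0 - G t) * fk K t := by
    have e : ∀ t, (G 0 - G t) * fk K t = G 0 * fk K t - G t * fk K t := fun t => by ring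
    simp only [e]
    rw [intervalIntegral.integral_sub (Continuous.intervalIntegrable (by fun_prop) _ _)
      (Continuous.intervalIntegrable (by fun_prop) _ _), intervalIntegral.integral_const_mul,
      integral_fk hK]
    field_simp
  have h1 : ∀ t, ‖(G 0 - G t) * fk K t‖
      ≤ π / 2 * B * (ε / 2 * fk K t + 1 / (2 * ε * K)) := by
    intro t
    have hf := fk_nonneg K t
    have ha := abs_sub_le_sin hper hlip t
    have hs : |Real.sin t| ≤ ε / 2 + Real.sin t ^ 2 / (2 * ε) := by
      have h3 : 0 ≤ (|Real.sin t| - ε) ^ 2 := sq_nonneg _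
      rw [← sq_abs (Real.sin t)]
      rw [← sub_nonneg]
      have : ε / 2 + |Real.sin t| ^ 2 / (2 * ε) - |Real.sin t| = (|Real.sin t| - ε) ^ 2 / (2 * ε) := by
        field_simp
        ring
      rw [this]
      positivity
    have hk := sin_sq_mul_fk K t
    rw [norm_mul, Real.norm_eq_abs, Real.norm_eq_abs, abs_of_nonneg hf, abs_sub_comm]
    calc |G t - G 0| * fk K t ≤ (π / 2 * B * |Real.sin t|) * fk K t := by gcongr
      _ ≤ (π / 2 * B * (ε / 2 + Real.sin t ^ 2 / (2 * ε))) * fk K t := by gcongr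
      _ = π / 2 * B * (ε / 2 * fk K t + (Real.sin t ^ 2 * fk K t) / (2 * ε)) := by ring
      _ ≤ π / 2 * B * (ε / 2 * fk K t + (1 / K) / (2 * ε)) := by gcongr
      _ = π / 2 * B * (ε / 2 * fk K t + 1 / (2 * ε * K)) := by
        congr 2
        field_simp
  have h2 : ‖∫ t in (0:ℝ)..(2 * π), (G 0 - G t) * fk K t‖
      ≤ ∫ t in (0:ℝ)..(2 * π), π / 2 * B * (ε / 2 * fk K t + 1 / (2 * ε * K)) := by
    apply intervalIntegral.norm_integral_le_of_norm_le (by positivity)
    · exact Eventually.of_forall fun t _ => h1 t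
    · exact Continuous.intervalIntegrable (by fun_prop) _ _
  have h3 : ∫ t in (0:ℝ)..(2 * π), π / 2 * B * (ε / 2 * fk K t + 1 / (2 * ε * K))
      = (2 * π) * (π / 2 * B * (ε / 2 + 1 / (2 * ε * K))) := by
    rw [intervalIntegral.integral_const_mul, intervalIntegral.integral_add
      (Continuous.intervalIntegrable (by fun_prop) _ _)
      (Continuous.intervalIntegrable (by fun_prop) _ _), intervalIntegral.integral_const_mul,
      integral_fk hK, intervalIntegral.integral_const]
    simp only [sub_zero, smul_eq_mul]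
    ring
  rw [h3] at h2
  rw [h0, abs_mul, abs_of_nonneg (by positivity : (0:ℝ) ≤ 1 / (2 * π))]
  rw [Real.norm_eq_abs] at h2
  calc (1 / (2 * π)) * |∫ t in (0:ℝ)..(2 * π), (G 0 - G t) * fk K t|
      ≤ (1 / (2 * π)) * ((2 * π) * (π / 2 * B * (ε / 2 + 1 / (2 * ε * K)))) := by gcongr
    _ = π / 2 * B * (ε / 2 + 1 / (2 * ε * K)) := by field_simp

/-! ### the mean of a function -/

/-- Fejer mean -/
noncomputable def avk (K : ℕ) (W : ℍ → ℝ) (x : ℍ) : ℝ :=
  (1 / (2 * π)) * ∫ t in (0:ℝ)..(2 * π), W (x * rot qI t) * fk K t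

theorem cts_avk (K : ℕ) {W : ℍ → ℝ} (hW : Cts W) : Cts (avk K W) where
  cont := by
    unfold avk
    exact continuousOn_const.mul (continuousOn_avg hW.cont (continuous_fk K) _ _)
  hom := by
    intro r x hr hx
    unfold avk
    congr 2
    funext t
    rw [smul_mul_assoc, hW.hom r _ hr (rrot_ne_zero isImUnit_I hx t)]

theorem qI_rot (t : ℝ) : qI * rot qI t = rot qI t * qI := rot_mul_comm qI t

theorem qK_rotI (t : ℝ) : qK * rot qI t = rot qI (-t) * qK := by
  simp only [rot, mul_add, add_mul, mul_smul_comm, smul_mul_assoc, mul_one, one_mul,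
    qK_mul_qI, qI_mul_qK, neg_div, Real.cos_neg, Real.sin_neg]
  module

theorem klein_avk (K : ℕ) {W : ℍ → ℝ} (hc : Cts W) (hW : IsKlein W) : IsKlein (avk K W) where
  mulI := by
    intro x
    unfold avk
    congr 2
    funext t
    rw [mul_assoc, qI_rot, ← mul_assoc, hW.mulI]
  mulK := by
    intro x
    by_cases hx : x = 0
    · subst hx; simp
    unfold avk
    congr 1
    have h1 : ∫ t in (0:ℝ)..(2 * π), W (x * qK * rot qI t) * fk K t
        = ∫ t in (0:ℝ)..(2 * π), W (x * rot qI (-t)) * fk K (-t) := by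
      congr 1
      funext t
      rw [mul_assoc, qK_rotI, ← mul_assoc, hW.mulK, fk_neg]
    rw [h1, intervalIntegral.integral_comp_neg (fun t => W (x * rot qI t) * fk K t)]
    have hper : Function.Periodic (fun t => W (x * rot qI t) * fk K t) (2 * π) :=
      (Cts.rot_periodic hc hx).mul (fk_periodic K)
    have h2 := hper.intervalIntegral_add_eq (-(2 * π)) 0
    rw [neg_add_cancel, zero_add] at h2
    rw [neg_zero, h2]

theorem hasDerivAt_avk (K : ℕ) (W : SF) {x : ℍ} (hx : x ≠ 0) (s : ℝ) :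
    HasDerivAt (fun s => avk K W (x * rot qI s)) (avk K (DV W) (x * rot qI s)) s := by
  have hcf := continuous_fk K
  have hWc : ∀ F : SF, Continuous fun p : ℝ × ℝ => F (x * rot qI p.1 * rot qI p.2) := by
    intro F
    apply F.continuousOn.comp_continuous
    · exact (continuous_const.mul ((continuous_rot qI).comp continuous_fst)).mul
        ((continuous_rot qI).comp continuous_snd)
    · intro p
      exact rrot_ne_zero isImUnit_I (rrot_ne_zero isImUnit_I hx _) _
  obtain ⟨B, hB⟩ := (isCompact_Icc.prod isCompact_Icc).exists_bound_of_continuousOn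
    (s := Icc (s - 1) (s + 1) ×ˢ Icc (0:ℝ) (2 * π))
    (f := fun p : ℝ × ℝ => (DV W) (x * rot qI p.1 * rot qI p.2) * fk K p.2)
    (((hWc (DV W)).mul (hcf.comp continuous_snd)).continuousOn)
  have key := intervalIntegral.hasDerivAt_integral_of_dominated_loc_of_deriv_le
    (μ := volume) (a := 0) (b := 2 * π) (x₀ := s) (s := Icc (s - 1) (s + 1))
    (F := fun s t => W (x * rot qI s * rot qI t) * fk K t)
    (F' := fun s t => (DV W) (x * rot qI s * rot qI t) * fk K t)
    (bound := fun _ => B)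
    (Icc_mem_nhds (by linarith) (by linarith))
    (Eventually.of_forall fun s' => by
      apply Continuous.aestronglyMeasurable
      exact ((hWc W).comp (Continuous.prodMk_right s')).mul hcf)
    (by
      apply Continuous.intervalIntegrable
      exact ((hWc W).comp (Continuous.prodMk_right s)).mul hcf)
    (by
      apply Continuous.aestronglyMeasurable
      exact ((hWc (DV W)).comp (Continuous.prodMk_right s)).mul hcf)
    (by
      refine Eventually.of_forall fun t ht s' hs' => ?_
      have ht' : t ∈ Icc (0:ℝ) (2 * π) := by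
        rw [uIoc_of_le (by positivity)] at ht
        exact Ioc_subset_Icc_self ht
      exact hB (s', t) ⟨hs', ht'⟩)
    (continuous_const.intervalIntegrable _ _)
    (by
      refine Eventually.of_forall fun t ht s' hs' => ?_
      apply HasDerivAt.mul_const
      have h1 := W.hasDerivAt_DV (x := x * rot qI t) (rrot_ne_zero isImUnit_I hx t) s'
      have e : ∀ r : ℝ, x * rot qI t * rot qI r = x * rot qI r * rot qI t := by
        intro r
        rw [mul_assoc, ← rot_add isImUnit_I, add_comm, rot_add isImUnit_I, ← mul_assoc]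
      simpa only [e] using h1)
  exact (key.2).const_mul (1 / (2 * π))

/-- right derivation by `V` is compatible with the right multiplication by `i` -/
theorem DV_mulI {W : SF} (hW : ∀ x : ℍ, W (x * qI) = W x) (x : ℍ) :
    (DV W) (x * qI) = (DV W) x := by
  by_cases hx : x = 0
  · subst hx; simp
  have hne : x * qI ≠ 0 := by
    have := rrot_ne_zero isImUnit_I hx π
    rwa [rot_pi] at this
  have h1 := W.hasDerivAt_DV hne 0
  have h2 := W.hasDerivAt_DV hx 0
  have e : (fun t => W (x * qI * rot qI t)) = fun t => W (x * rot qI t) := by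
    funext t
    rw [mul_assoc, qI_rot, ← mul_assoc, hW]
  rw [e] at h1
  have h3 := h1.unique h2
  simpa [rot_zero] using h3

theorem avk_error {W : SF} (hW : ∀ x : ℍ, W (x * qI) = W x) {B : ℝ}
    (hB : ∀ x : ℍ, |(DV W) x| ≤ B) {K : ℕ} (hK : 0 < K) {ε : ℝ} (hε : 0 < ε)
    {x : ℍ} (hx : x ≠ 0) :
    |W x - avk K W x| ≤ π / 2 * B * (ε / 2 + 1 / (2 * ε * K)) := by
  have h1 := fk_error (G := fun t => W (x * rot qI t)) (B := B)
    (continuous_comp_rot W.continuousOn hx)
    (by
      intro t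
      show W (x * rot qI (t + π)) = W (x * rot qI t)
      rw [rot_add_pi isImUnit_I, ← mul_assoc, hW])
    (by
      intro t
      have h := Convex.norm_image_sub_le_of_norm_hasDerivWithin_le (s := (univ : Set ℝ))
        (f := fun t => W (x * rot qI t)) (f' := fun t => (DV W) (x * rot qI t)) (C := B)
        (x := 0) (y := t)
        (fun r _ => (W.hasDerivAt_DV hx r).hasDerivWithinAt)
        (fun r _ => by rw [Real.norm_eq_abs]; exact hB _) convex_univ (mem_univ _) (mem_univ _)
      simpa using h)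
    hK hε
  simp only [rot_zero, mul_one] at h1
  exact h1

end Pool.Agent.MP85963d.H79
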