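import Mathlib
import Pool.Agent.Lib.MP_85963d_gt.H79.Fejer

/-!
# Module GARD: the Garding inequality
-/

set_option autoImplicit false

open MeasureTheory Set Filter Topology Quaternion
open scoped Real ContDiff

namespace Pool.Agent.MP85963d.H79

open SF

/-- the integrals of the shift lemma -/
noncomputable def TT (W Ψ : SF) (a b : ℕ) : ℂ :=
  ∫ x in shell, cmp ((b:ℤ) - a) W x * cmp a Ψ x * (starRingEnd ℂ) (cmp b Ψ x)

theorem continuousOn_TT (W Ψ : SF) (c a b : ℤ) :
    ContinuousOn (fun x => cmp c W x * cmp a Ψ x * (starRingEnd ℂ) (cmp b Ψ x)) {0}ᶜ :=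
  ((continuousOn_cmp c W.continuousOn).mul (continuousOn_cmp a Ψ.continuousOn)).mul
    (Complex.continuous_conj.comp_continuousOn (continuousOn_cmp b Ψ.continuousOn))

/-- pointwise positivity -/
theorem pos_pointwise (K : ℕ) {W : SF} (hW : ∀ x : ℍ, x ≠ 0 → 0 ≤ W x) (z : ℕ → ℂ)
    {x : ℍ} (hx : x ≠ 0) :
    0 ≤ (∑ i ∈ Finset.range K, ∑ j ∈ Finset.range K,
      cmp (((2 * j : ℕ) : ℤ) - (2 * i : ℕ)) W x * z i * (starRingEnd ℂ) (z j)).re := by
  have hWc := continuous_comp_rot W.continuousOn hx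
  have hpi : (1 / (2 * π) : ℂ) = ((1 / (2 * π) : ℝ) : ℂ) := by push_cast; ring
  have h1 : ∀ i j : ℕ, cmp (((2 * j : ℕ) : ℤ) - (2 * i : ℕ)) W x * z i * (starRingEnd ℂ) (z j)
      = (1 / (2 * π) : ℂ) * ∫ t in (0:ℝ)..(2 * π), (W (x * rot qI t) : ℂ) *
        ((Complex.exp (2 * i * t * Complex.I) * z i) *
          (starRingEnd ℂ) (Complex.exp (2 * j * t * Complex.I) * z j)) := by
    intro i j
    rw [cmp, mul_assoc, mul_assoc, ← intervalIntegral.integral_mul_const]
    congr 2
    funext t
    have e1 : Complex.exp (-(((((2 * j : ℕ) : ℤ) - ((2 * i : ℕ) : ℤ) : ℤ) : ℂ) * t * Complex.I))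
        = Complex.exp (2 * i * t * Complex.I)
          * (starRingEnd ℂ) (Complex.exp (2 * j * t * Complex.I)) := by
      rw [← Complex.exp_conj, ← Complex.exp_add]
      congr 1
      simp only [map_mul, Complex.conj_I, Complex.conj_ofReal, map_natCast, map_ofNat]
      push_cast
      ring
    rw [e1, map_mul]
    ring
  simp only [h1]
  have hc : ∀ i j : ℕ, Continuous fun t : ℝ => (W (x * rot qI t) : ℂ) *
        ((Complex.exp (2 * i * t * Complex.I) * z i) *
          (starRingEnd ℂ) (Complex.exp (2 * j * t * Complex.I) * z j)) := by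
    intro i j
    apply (Complex.continuous_ofReal.comp hWc).mul
    apply Continuous.mul
    · fun_prop
    · apply Complex.continuous_conj.comp
      fun_prop
  have h2 : ∑ i ∈ Finset.range K, ∑ j ∈ Finset.range K,
      (1 / (2 * π) : ℂ) * ∫ t in (0:ℝ)..(2 * π), (W (x * rot qI t) : ℂ) *
        ((Complex.exp (2 * i * t * Complex.I) * z i) *
          (starRingEnd ℂ) (Complex.exp (2 * j * t * Complex.I) * z j))
      = (1 / (2 * π) : ℂ) * ∫ t in (0:ℝ)..(2 * π), (W (x * rot qI t) : ℂ) *
        ((∑ i ∈ Finset.range K, Complex.exp (2 * i * t * Complex.I) * z i) *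
          (starRingEnd ℂ) (∑ j ∈ Finset.range K, Complex.exp (2 * j * t * Complex.I) * z j)) := by
    simp only [← Finset.mul_sum]
    congr 1
    have h3 : ∀ t : ℝ, (W (x * rot qI t) : ℂ) *
        ((∑ i ∈ Finset.range K, Complex.exp (2 * i * t * Complex.I) * z i) *
          (starRingEnd ℂ) (∑ j ∈ Finset.range K, Complex.exp (2 * j * t * Complex.I) * z j))
        = ∑ i ∈ Finset.range K, ∑ j ∈ Finset.range K, (W (x * rot qI t) : ℂ) *
        ((Complex.exp (2 * i * t * Complex.I) * z i) *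
          (starRingEnd ℂ) (Complex.exp (2 * j * t * Complex.I) * z j)) := by
      intro t
      rw [map_sum, Finset.sum_mul_sum]
      simp only [Finset.mul_sum]
    simp only [h3]
    rw [intervalIntegral.integral_finsetSum]
    · apply Finset.sum_congr rfl
      intro i _
      rw [intervalIntegral.integral_finsetSum]
      intro j _
      exact (hc i j).intervalIntegrable _ _
    · intro i _
      apply Continuous.intervalIntegrable
      exact continuous_finsetSum _ fun j _ => hc i j
  rw [h2]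
  have h4 : ∀ t : ℝ, (W (x * rot qI t) : ℂ) *
        ((∑ i ∈ Finset.range K, Complex.exp (2 * i * t * Complex.I) * z i) *
          (starRingEnd ℂ) (∑ j ∈ Finset.range K, Complex.exp (2 * j * t * Complex.I) * z j))
      = ((W (x * rot qI t) * Complex.normSq
        (∑ i ∈ Finset.range K, Complex.exp (2 * i * t * Complex.I) * z i) : ℝ) : ℂ) := by
    intro t
    rw [Complex.mul_conj]
    push_cast
    ring
  simp only [h4]
  rw [intervalIntegral.integral_ofReal, hpi, ← Complex.ofReal_mul, Complex.ofReal_re]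
  apply mul_nonneg (by positivity)
  apply intervalIntegral.integral_nonneg (by positivity)
  intro t _
  exact mul_nonneg (hW _ (rrot_ne_zero isImUnit_I hx t)) (Complex.normSq_nonneg _)

theorem re_integral {f : ℍ → ℂ} (hf : ContinuousOn f {0}ᶜ) :
    (∫ x in shell, f x).re = ∫ x in shell, (f x).re := by
  have := Complex.reCLM.integral_comp_comm (integrableOn_shellE hf)
  simpa using this.symm

theorem sum_TT_nonneg (K : ℕ) {W : SF} (hW : ∀ x : ℍ, x ≠ 0 → 0 ≤ W x) (Ψ : SF) :
    0 ≤ (∑ i ∈ Finset.range K, ∑ j ∈ Finset.range K, TT W Ψ (2 * i) (2 * j)).re := by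
  have h1 : ∑ i ∈ Finset.range K, ∑ j ∈ Finset.range K, TT W Ψ (2 * i) (2 * j)
      = ∫ x in shell, ∑ i ∈ Finset.range K, ∑ j ∈ Finset.range K,
        cmp (((2 * j : ℕ) : ℤ) - (2 * i : ℕ)) W x * cmp (2 * i : ℕ) Ψ x
          * (starRingEnd ℂ) (cmp (2 * j : ℕ) Ψ x) := by
    rw [integral_finsetSum]
    · apply Finset.sum_congr rfl
      intro i _
      rw [integral_finsetSum]
      · rfl
      · intro j _
        exact integrableOn_shellE (continuousOn_TT _ _ _ _ _)
    · intro i _
      apply integrable_finsetSum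
      intro j _
      exact integrableOn_shellE (continuousOn_TT _ _ _ _ _)
  rw [h1, re_integral]
  · apply setIntegral_nonneg measurableSet_shell
    intro x hx
    exact pos_pointwise K hW (fun i => cmp (2 * i : ℕ) Ψ x) (ne_zero_of_mem_shell hx)
  · exact continuousOn_finsetSum _ fun i _ => continuousOn_finsetSum _ fun j _ =>
      continuousOn_TT _ _ _ _ _

theorem telescope {T : ℕ → ℕ → ℂ} {M : ℝ} {K : ℕ}
    (h : ∀ i j, i < K → j < K → ‖T (i + 1) (j + 1) - T i j‖ ≤ M) (m : ℕ) :
    ∀ i j, i + m ≤ K → j + m ≤ K → ‖T (i + m) (j + m) - T i j‖ ≤ m * M := by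
  induction m with
  | zero => intro i j _ _; simp
  | succ m ih =>
    intro i j hi hj
    have h1 := ih i j (by omega) (by omega)
    have h2 := h (i + m) (j + m) (by omega) (by omega)
    calc ‖T (i + (m + 1)) (j + (m + 1)) - T i j‖
        = ‖(T (i + m + 1) (j + m + 1) - T (i + m) (j + m)) + (T (i + m) (j + m) - T i j)‖ := by
          congr 1; rw [← add_assoc, ← add_assoc]; ring
      _ ≤ M + m * M := (norm_add_le _ _).trans (add_le_add h2 h1)
      _ = ((m + 1 : ℕ) : ℝ) * M := by push_cast; ring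

theorem TT_zero_left {W Ψ f : SF} (hf : IsU f) (h0 : ∀ x : ℍ, x ≠ 0 → avgI Ψ x = f x) (b : ℕ) :
    TT W Ψ 0 b = ∫ x in shell, (cmp b W x * f x) * Ψ x := by
  have h1 : TT W Ψ 0 b = ∫ x in shell, (cmp b W x * f x) * (starRingEnd ℂ) (cmp b Ψ x) := by
    apply setIntegral_congr_fun measurableSet_shell
    intro x hx
    simp only
    have e : ((b:ℤ) - ((0:ℕ):ℤ)) = b := by simp
    rw [e, Nat.cast_zero, cmp_zero, h0 x (ne_zero_of_mem_shell hx)]
  rw [h1]
  apply integral_cmp
  · exact (continuousOn_cmp b W.continuousOn).mul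
      (Complex.continuous_ofReal.comp_continuousOn f.continuousOn)
  · intro x hx s
    rw [cmp_rot b (cts_SF W) hx, hf.rotI]
    ring
  · exact Ψ.continuousOn

theorem TT_conj (W Ψ : SF) (a b : ℕ) : TT W Ψ b a = (starRingEnd ℂ) (TT W Ψ a b) := by
  rw [TT, TT, ← integral_conj]
  congr 1
  funext x
  rw [map_mul, map_mul, Complex.conj_conj, conj_cmp ((b:ℤ) - a)]
  have e : -((b:ℤ) - a) = (a:ℤ) - b := by ring
  rw [e]
  ring

/-- real part of a component -/
theorem re_TT {W Ψ f : SF} (hf : IsU f) (h0 : ∀ x : ℍ, x ≠ 0 → avgI Ψ x = f x) (i j : ℕ) :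
    (TT W Ψ (2 * (i - j)) (2 * (j - i))).re
      = ∫ x in shell, ((1 / (2 * π)) * ∫ t in (0:ℝ)..(2 * π),
          W (x * rot qI t) * Real.cos (2 * ((i:ℝ) - j) * t)) * f x * Ψ x := by
  have key : ∀ d : ℕ, (TT W Ψ 0 (2 * d)).re
      = ∫ x in shell, ((1 / (2 * π)) * ∫ t in (0:ℝ)..(2 * π),
          W (x * rot qI t) * Real.cos (2 * (d:ℝ) * t)) * f x * Ψ x := by
    intro d
    rw [TT_zero_left hf h0, re_integral]
    · apply setIntegral_congr_fun measurableSet_shell
      intro x hx
      simp only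
      rw [mul_comm _ ((Ψ x : ℂ)), Complex.re_ofReal_mul, mul_comm _ ((f x : ℂ)),
        Complex.re_ofReal_mul, cmp_re _ W.continuousOn (ne_zero_of_mem_shell hx)]
      push_cast
      ring
    · exact ((continuousOn_cmp _ W.continuousOn).mul
        (Complex.continuous_ofReal.comp_continuousOn f.continuousOn)).mul
        (Complex.continuous_ofReal.comp_continuousOn Ψ.continuousOn)
  rcases le_total i j with h | h
  · have e1 : i - j = 0 := by omega
    rw [e1, mul_zero, key]
    have e2 : ((j - i : ℕ) : ℝ) = j - i := by push_cast [Nat.cast_sub h]; ring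
    rw [e2]
    congr 1
    funext x
    congr 4
    funext t
    rw [← Real.cos_neg]
    congr 2
    ring
  · have e1 : j - i = 0 := by omega
    rw [e1, mul_zero, TT_conj, Complex.conj_re, key]
    have e2 : ((i - j : ℕ) : ℝ) = i - j := by push_cast [Nat.cast_sub h]; ring
    rw [e2]

theorem sum_re_TT {W Ψ f : SF} (hf : IsU f) (h0 : ∀ x : ℍ, x ≠ 0 → avgI Ψ x = f x) {K : ℕ}
    (hK : 0 < K) :
    ∑ i ∈ Finset.range K, ∑ j ∈ Finset.range K, (TT W Ψ (2 * (i - j)) (2 * (j - i))).re
      = K * ∫ x in shell, avk K W x * f x * Ψ x := by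
  simp only [re_TT hf h0]
  have hKr : (K:ℝ) ≠ 0 := by positivity
  have hg : ∀ i j : ℕ, ContinuousOn (fun x => ((1 / (2 * π)) * ∫ t in (0:ℝ)..(2 * π),
          W (x * rot qI t) * Real.cos (2 * ((i:ℝ) - j) * t)) * f x * Ψ x) {0}ᶜ := by
    intro i j
    apply ContinuousOn.mul _ Ψ.continuousOn
    apply ContinuousOn.mul _ f.continuousOn
    exact continuousOn_const.mul (continuousOn_avg W.continuousOn (by fun_prop) _ _)
  rw [← integral_const_mul]
  have h1 : ∀ i ∈ Finset.range K, ∑ j ∈ Finset.range K,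
      ∫ x in shell, ((1 / (2 * π)) * ∫ t in (0:ℝ)..(2 * π),
          W (x * rot qI t) * Real.cos (2 * ((i:ℝ) - j) * t)) * f x * Ψ x
      = ∫ x in shell, ∑ j ∈ Finset.range K, ((1 / (2 * π)) * ∫ t in (0:ℝ)..(2 * π),
          W (x * rot qI t) * Real.cos (2 * ((i:ℝ) - j) * t)) * f x * Ψ x := by
    intro i _
    rw [integral_finsetSum]
    intro j _
    exact integrableOn_shellE (hg i j)
  rw [Finset.sum_congr rfl h1, ← integral_finsetSum]
  · apply setIntegral_congr_fun measurableSet_shell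
    intro x hx
    simp only
    have hx0 := ne_zero_of_mem_shell hx
    have hWc := continuous_comp_rot W.continuousOn hx0
    have h2 : avk K W x = (1 / (K:ℝ)) * ∑ i ∈ Finset.range K, ∑ j ∈ Finset.range K,
        (1 / (2 * π)) * ∫ t in (0:ℝ)..(2 * π),
          W (x * rot qI t) * Real.cos (2 * ((i:ℝ) - j) * t) := by
      unfold avk fk
      simp only [← Finset.mul_sum]
      rw [mul_left_comm]
      congr 1
      have h3 : ∀ t : ℝ, W (x * rot qI t) * (1 / (K:ℝ) * ∑ i ∈ Finset.range K,
          ∑ j ∈ Finset.range K, Real.cos (2 * ((i:ℝ) - j) * t))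
          = (1 / (K:ℝ)) * ∑ i ∈ Finset.range K, ∑ j ∈ Finset.range K,
            W (x * rot qI t) * Real.cos (2 * ((i:ℝ) - j) * t) := by
        intro t
        simp only [Finset.mul_sum]
        apply Finset.sum_congr rfl
        intro i _
        apply Finset.sum_congr rfl
        intro j _
        ring
      simp only [h3]
      rw [intervalIntegral.integral_const_mul]
      congr 1
      rw [intervalIntegral.integral_finsetSum]
      · apply Finset.sum_congr rfl
        intro i _
        rw [intervalIntegral.integral_finsetSum]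
        intro j _
        exact Continuous.intervalIntegrable (by fun_prop) _ _
      · intro i _
        exact Continuous.intervalIntegrable (by fun_prop) _ _
    rw [h2]
    simp only [← Finset.sum_mul]
    field_simp
  · intro i _
    apply integrable_finsetSum
    intro j _
    exact integrableOn_shellE (hg i j)

/-- multiplication by bounded functions -/
theorem nrm_mul_le {g f : ℍ → ℝ} (hg : ContinuousOn g {0}ᶜ) (hf : ContinuousOn f {0}ᶜ) {M : ℝ}
    (hM : 0 ≤ M) (h : ∀ x : ℍ, x ≠ 0 → |g x| ≤ M) : nrm (fun x => g x * f x) ≤ M * nrm f := by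
  have h1 : nrm (fun x => g x * f x) ^ 2 ≤ (M * nrm f) ^ 2 := by
    rw [nrm_sq, mul_pow, nrm_sq, ← integral_const_mul]
    apply setIntegral_mono_on (integrableOn_shell ((hg.mul hf).pow 2))
      ((integrableOn_shell (hf.pow 2)).const_mul _) measurableSet_shell
    intro x hx
    have h2 := h x (ne_zero_of_mem_shell hx)
    have h3 : g x ^ 2 ≤ M ^ 2 := by
      rw [← sq_abs (g x)]
      exact pow_le_pow_left₀ (abs_nonneg _) h2 2
    show (g x * f x) ^ 2 ≤ M ^ 2 * f x ^ 2
    rw [mul_pow]
    exact mul_le_mul_of_nonneg_right h3 (sq_nonneg _)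
  exact (pow_le_pow_iff_left₀ (nrm_nonneg _) (mul_nonneg hM (nrm_nonneg _)) (by norm_num)).1 h1

theorem isKlein_of_isU {f : ℍ → ℝ} (hf : IsU f) : IsKlein f where
  mulI := by
    intro x
    have := hf.rotI x π
    rwa [rot_pi] at this
  mulK := hf.mulK

theorem isKlein_mul {f g : ℍ → ℝ} (hf : IsKlein f) (hg : IsKlein g) :
    IsKlein fun x => f x * g x where
  mulI := fun x => by simp only [hf.mulI, hg.mulI]
  mulK := fun x => by simp only [hf.mulK, hg.mulK]

theorem cts_mul {f g : ℍ → ℝ} (hf : Cts f) (hg : Cts g) : Cts fun x => f x * g x where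
  cont := hf.cont.mul hg.cont
  hom := fun r x hr hx => by simp only [hf.hom r x hr hx, hg.hom r x hr hx]

theorem cts_sub {f g : ℍ → ℝ} (hf : Cts f) (hg : Cts g) : Cts fun x => f x - g x where
  cont := hf.cont.sub hg.cont
  hom := fun r x hr hx => by simp only [hf.hom r x hr hx, hg.hom r x hr hx]

theorem nrm1_nonneg (F : SF) : 0 ≤ nrm1 F := Real.sqrt_nonneg _

theorem gard_of (hS : ShiftStatement) (hP : PestStatement) (hPsi : PsiFacts) :
    GardStatement := by
  intro c₀ B hc₀
  have hpi := Real.pi_pos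
  set B' : ℝ := |B| with hB'
  have hB'0 : 0 ≤ B' := abs_nonneg _
  set ε : ℝ := c₀ / (2 * π * (B' + 1)) with hεdef
  have hε : 0 < ε := by positivity
  obtain ⟨K₀, hK₀⟩ := exists_nat_ge (1 / ε ^ 2)
  set K : ℕ := K₀ + 1 with hKdef
  have hK : 0 < K := by omega
  have hKr : (0:ℝ) < K := by exact_mod_cast hK
  have hKε : 1 / ε ^ 2 ≤ K := by
    rw [hKdef]; push_cast; linarith
  have herr : π / 2 * B' * (ε / 2 + 1 / (2 * ε * K)) ≤ c₀ / 4 := by
    have h1 : 1 / (2 * ε * K) ≤ ε / 2 := by
      rw [div_le_iff₀ (by positivity)] at hKε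
      rw [div_le_iff₀ (by positivity)]
      nlinarith
    have h2 : ε / 2 + 1 / (2 * ε * K) ≤ ε := by linarith
    have h3 : π / 2 * B' * ε ≤ c₀ / 4 := by
      rw [hεdef]
      have : π / 2 * B' * (c₀ / (2 * π * (B' + 1))) = (c₀ / 4) * (B' / (B' + 1)) := by
        field_simp
        ring
      rw [this]
      have h4 : B' / (B' + 1) ≤ 1 := by
        rw [div_le_one (by positivity)]; linarith
      nlinarith
    calc π / 2 * B' * (ε / 2 + 1 / (2 * ε * K)) ≤ π / 2 * B' * ε := by gcongr
      _ ≤ c₀ / 4 := h3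
  choose Cs hCs using fun i j : ℕ => hS (2 * i) (2 * j) (by simp) (by simp)
  set M₀ : ℝ := ∑ i ∈ Finset.range K, ∑ j ∈ Finset.range K, |Cs i j| with hM₀
  have hM₀0 : 0 ≤ M₀ := Finset.sum_nonneg fun i _ => Finset.sum_nonneg fun j _ => abs_nonneg _
  have hCsM : ∀ i j, i < K → j < K → |Cs i j| ≤ M₀ := by
    intro i j hi hj
    calc |Cs i j| ≤ ∑ j ∈ Finset.range K, |Cs i j| :=
          Finset.single_le_sum (f := fun j => |Cs i j|) (fun j _ => abs_nonneg _)
            (Finset.mem_range.2 hj)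
      _ ≤ M₀ := Finset.single_le_sum (f := fun i => ∑ j ∈ Finset.range K, |Cs i j|)
            (fun i _ => Finset.sum_nonneg fun j _ => abs_nonneg _) (Finset.mem_range.2 hi)
  refine ⟨c₀ / 2, by positivity, K ^ 2 * (M₀ * (B' + c₀)), ?_⟩
  intro w hwK hwpos hwB n χ hχ
  have hB0 : 0 ≤ B := le_trans (abs_nonneg _) (hwB [] (by simp) 0)
  have hBB : B' = B := abs_of_nonneg hB0
  -- the function
  set f : SF := Lap χ with hf
  set Ψ : SF := Lap (psi χ) with hΨ
  have hfU : f ∈ UN n := hPsi.lap_mem n χ hχ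
  have hfu : IsU f := hfU.2
  have hpsif : psi f = Ψ := hPsi.lap n χ hχ
  have havg : ∀ x : ℍ, x ≠ 0 → avgI Ψ x = f x := by
    intro x hx
    rw [← hpsif]
    exact hPsi.avg n f hfU x hx
  set R : ℝ := (nrm f + nrm1 χ) * (nrm1 χ + nrm χ) with hR
  have hR0 : 0 ≤ R := mul_nonneg (add_nonneg (nrm_nonneg _) (nrm1_nonneg _))
    (add_nonneg (nrm1_nonneg _) (nrm_nonneg _))
  -- the shifted weight
  set W : SF := w - c₀ • (1 : SF) with hWdef
  have hWx : ∀ x : ℍ, x ≠ 0 → W x = w x - c₀ := by
    intro x hx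
    rw [hWdef, sub_apply, smul_apply, one_apply hx, mul_one]
  have hDW : ∀ D : Derivation ℝ SF SF, D W = D w := by
    intro D
    rw [hWdef, map_sub, Derivation.map_smul, Derivation.map_one_eq_zero, smul_zero, sub_zero]
  have hWK : IsKlein W := by
    constructor
    · intro x
      by_cases hx : x = 0
      · subst hx; simp
      · have hne : x * qI ≠ 0 := by
          have := rrot_ne_zero isImUnit_I hx π
          rwa [rot_pi] at this
        rw [hWx _ hne, hWx x hx, hwK.mulI]
    · intro x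
      by_cases hx : x = 0
      · subst hx; simp
      · have hne : x * qK ≠ 0 := by
          have := rrot_ne_zero isImUnit_K hx π
          rwa [rot_pi] at this
        rw [hWx _ hne, hWx x hx, hwK.mulK]
  have hWpos : ∀ x : ℍ, x ≠ 0 → 0 ≤ W x := by
    intro x hx
    rw [hWx x hx]
    have := hwpos x hx
    linarith
  have hWB : Bd 1 (B + c₀) W := by
    intro l hl x
    match l, hl with
    | [], _ =>
      show |W x| ≤ _
      by_cases hx : x = 0
      · subst hx
        rw [map_zero', abs_zero]; linarith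
      · rw [hWx x hx]
        have := hwB [] (by simp) x
        change |w x| ≤ B at this
        rw [abs_le] at this ⊢
        constructor <;> linarith [this.1, this.2]
    | [i], _ =>
      show |(Dlet i W) x| ≤ _
      rw [hDW]
      have := hwB [i] (by simp) x
      change |(Dlet i w) x| ≤ B at this
      linarith
  have hV1 : ∀ x : ℍ, |(DV W) x| ≤ B := by
    intro x
    rw [hDW]
    exact hwB [1] (by simp) x
  have hV2 : ∀ x : ℍ, |(DV (DV W)) x| ≤ B := by
    intro x
    rw [hDW]
    exact hwB [1, 1] (by simp) x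
  -- errors of the means
  have hE1 : ∀ x : ℍ, x ≠ 0 → |W x - avk K W x| ≤ c₀ / 4 := by
    intro x hx
    have := avk_error hWK.mulI hV1 hK hε hx
    rw [hBB] at herr
    linarith
  have hE2 : ∀ x : ℍ, x ≠ 0 → |(DV W) x - avk K (DV W) x| ≤ c₀ / 4 := by
    intro x hx
    have := avk_error (DV_mulI hWK.mulI) hV2 hK hε hx
    rw [hBB] at herr
    linarith
  -- Pestov bound for the error
  have hctsW : Cts (fun x => W x - avk K W x) := cts_sub (cts_SF W) (cts_avk K (cts_SF W))
  have hctsW' : Cts (fun x => (DV W) x - avk K (DV W) x) :=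
    cts_sub (cts_SF _) (cts_avk K (cts_SF _))
  have hKl : IsKlein (fun x => W x - avk K W x) := by
    have h1 := klein_avk K (cts_SF W) hWK
    exact ⟨fun x => by simp only [hWK.mulI, h1.mulI], fun x => by simp only [hWK.mulK, h1.mulK]⟩
  have hPest := hP n f hfU (fun x => (W x - avk K W x) * f x)
    (fun x => ((DV W) x - avk K (DV W) x) * f x)
    (cts_mul hctsW (cts_SF f)) (cts_mul hctsW' (cts_SF f))
    (isKlein_mul hKl (isKlein_of_isU hfu))
    (by
      intro x hx t
      have h1 := ((W.hasDerivAt_DV hx t).sub (hasDerivAt_avk K W hx t)).mul_const (f x)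
      simpa only [hfu.rotI, Pi.sub_apply] using h1)
  have hN1 : nrm (fun x => (W x - avk K W x) * f x) ≤ c₀ / 4 * nrm f :=
    nrm_mul_le hctsW.cont f.continuousOn (by positivity) hE1
  have hN2 : nrm (fun x => ((DV W) x - avk K (DV W) x) * f x) ≤ c₀ / 4 * nrm f :=
    nrm_mul_le hctsW'.cont f.continuousOn (by positivity) hE2
  rw [hpsif] at hPest
  have hnf := nrm_nonneg f
  have hPest2 : |ip (fun x => (W x - avk K W x) * f x) Ψ| ≤ c₀ / 2 * nrm f ^ 2 := by
    refine hPest.trans ?_
    nlinarith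
  -- the sum of the shifted terms
  have hstep : ∀ i j, i < K → j < K →
      ‖TT W Ψ (2 * (i + 1)) (2 * (j + 1)) - TT W Ψ (2 * i) (2 * j)‖
        ≤ M₀ * (B + c₀) * R := by
    intro i j hi hj
    have h1 := hCs i j (B + c₀) W hWK hWB n χ hχ
    have e1 : TT W Ψ (2 * (i + 1)) (2 * (j + 1))
        = ∫ x in shell, cmp (((2 * j : ℕ) : ℤ) - (2 * i : ℕ)) W x
          * cmp (((2 * i : ℕ) : ℤ) + 2) (Lap (psi χ)) x
          * (starRingEnd ℂ) (cmp (((2 * j : ℕ) : ℤ) + 2) (Lap (psi χ)) x) := by
      unfold TT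
      congr 1
      funext x
      have a1 : (((2 * (j + 1) : ℕ) : ℤ) - (2 * (i + 1) : ℕ)) = ((2 * j : ℕ) : ℤ) - (2 * i : ℕ) := by
        push_cast; ring
      have a2 : (((2 * (i + 1) : ℕ) : ℤ)) = ((2 * i : ℕ) : ℤ) + 2 := by push_cast; ring
      have a3 : (((2 * (j + 1) : ℕ) : ℤ)) = ((2 * j : ℕ) : ℤ) + 2 := by push_cast; ring
      rw [a1, a2, a3]
    have h2 : ‖TT W Ψ (2 * (i + 1)) (2 * (j + 1)) - TT W Ψ (2 * i) (2 * j)‖
        ≤ Cs i j * (B + c₀) * R := by
      rw [e1, hR, ← mul_assoc]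
      exact h1
    refine h2.trans ?_
    have h3 : Cs i j ≤ M₀ := (le_abs_self _).trans (hCsM i j hi hj)
    have h4 : 0 ≤ (B + c₀) * R := by positivity
    nlinarith
  have hMR : 0 ≤ M₀ * (B + c₀) * R := by positivity
  have htel : ∀ i j, i < K → j < K →
      (TT W Ψ (2 * i) (2 * j)).re - K * (M₀ * (B + c₀) * R)
        ≤ (TT W Ψ (2 * (i - j)) (2 * (j - i))).re := by
    intro i j hi hj
    have h1 := telescope (T := fun i j => TT W Ψ (2 * i) (2 * j)) (K := K) hstep (min i j)
      (i - j) (j - i) (by omega) (by omega)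
    have e1 : i - j + min i j = i := by omega
    have e2 : j - i + min i j = j := by omega
    simp only [e1, e2] at h1
    have h2 : ((min i j : ℕ) : ℝ) * (M₀ * (B + c₀) * R) ≤ K * (M₀ * (B + c₀) * R) := by
      apply mul_le_mul_of_nonneg_right _ hMR
      exact_mod_cast (by omega : min i j ≤ K)
    have h3 := Complex.abs_re_le_norm
      (TT W Ψ (2 * i) (2 * j) - TT W Ψ (2 * (i - j)) (2 * (j - i)))
    rw [Complex.sub_re] at h3
    have h4 := (abs_le.1 (h3.trans (h1.trans h2))).2
    linarith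
  have hsum : -((K:ℝ) ^ 2 * (K * (M₀ * (B + c₀) * R)))
      ≤ ∑ i ∈ Finset.range K, ∑ j ∈ Finset.range K,
        (TT W Ψ (2 * (i - j)) (2 * (j - i))).re := by
    have h1 := sum_TT_nonneg K hWpos Ψ
    have h2 : ∑ i ∈ Finset.range K, ∑ j ∈ Finset.range K,
        ((TT W Ψ (2 * i) (2 * j)).re - K * (M₀ * (B + c₀) * R))
        ≤ ∑ i ∈ Finset.range K, ∑ j ∈ Finset.range K,
        (TT W Ψ (2 * (i - j)) (2 * (j - i))).re := by
      apply Finset.sum_le_sum
      intro i hi
      apply Finset.sum_le_sum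
      intro j hj
      exact htel i j (Finset.mem_range.1 hi) (Finset.mem_range.1 hj)
    refine le_trans ?_ h2
    simp only [Finset.sum_sub_distrib, Finset.sum_const, Finset.card_range, nsmul_eq_mul]
    rw [Complex.re_sum] at h1
    simp only [Complex.re_sum] at h1
    nlinarith
  rw [sum_re_TT hfu havg hK] at hsum
  have hmain : -((K:ℝ) ^ 2 * (M₀ * (B + c₀) * R)) ≤ ∫ x in shell, avk K W x * f x * Ψ x := by
    have h1 : (K:ℝ) * -((K:ℝ) ^ 2 * (M₀ * (B + c₀) * R))
        ≤ K * ∫ x in shell, avk K W x * f x * Ψ x := by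
      refine le_trans (le_of_eq ?_) hsum
      ring
    exact le_of_mul_le_mul_left h1 hKr
  -- decomposition
  have hpair : ip f Ψ = nrm f ^ 2 := by
    rw [← hpsif, hPsi.pair n f hfU f (cts_SF f) hfu, nrm_sq']
  have hdec : ∫ x in shell, w x * f x * Ψ x = c₀ * ip f Ψ
      + ip (fun x => (W x - avk K W x) * f x) Ψ + ∫ x in shell, avk K W x * f x * Ψ x := by
    have ha := (cts_avk K (cts_SF W)).cont
    have i1 : IntegrableOn (fun x => c₀ * (f x * Ψ x)) shell :=
      (integrableOn_shell (f.continuousOn.mul Ψ.continuousOn)).const_mul _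
    have i2 : IntegrableOn (fun x => (W x - avk K W x) * f x * Ψ x) shell :=
      integrableOn_shell ((hctsW.cont.mul f.continuousOn).mul Ψ.continuousOn)
    have i3 : IntegrableOn (fun x => avk K W x * f x * Ψ x) shell :=
      integrableOn_shell ((ha.mul f.continuousOn).mul Ψ.continuousOn)
    have i12 : IntegrableOn (fun x => c₀ * (f x * Ψ x) + (W x - avk K W x) * f x * Ψ x) shell :=
      i1.add i2
    rw [ip, ip, ← integral_const_mul, ← integral_add i1 i2, ← integral_add i12 i3]
    apply setIntegral_congr_fun measurableSet_shell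
    intro x hx
    have := hWx x (ne_zero_of_mem_shell hx)
    have e : w x = W x + c₀ := by linarith
    simp only [e]
    ring
  rw [hdec, hpair]
  have h5 := (abs_le.1 hPest2).1
  rw [hBB]
  have e6 : (K:ℝ) ^ 2 * (M₀ * (B + c₀)) * (nrm f + nrm1 χ) * (nrm1 χ + nrm χ)
      = (K:ℝ) ^ 2 * (M₀ * (B + c₀) * R) := by rw [hR]; ring
  rw [e6]
  linarith

end Pool.Agent.MP85963d.H79
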