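import Mathlib
import Pool.Agent.Lib.MP_85963d_gt.H79.Gard

/-!
# Module LINEN: the linear energy estimate
-/

set_option autoImplicit false

open MeasureTheory Set Filter Topology Quaternion
open scoped Real ContDiff

namespace Pool.Agent.MP85963d.H79

open SF

theorem nrm_add_le (F G : SF) : nrm (F + G : SF) ≤ nrm F + nrm G := by
  have h1 : nrm (F + G : SF) ^ 2 = ip F (F + G : SF) + ip G (F + G : SF) := by
    rw [nrm_sq', ip_add_left]
  have h2 := (le_abs_self _).trans (abs_ip_le F.continuousOn (F + G : SF).continuousOn)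
  have h3 := (le_abs_self _).trans (abs_ip_le G.continuousOn (F + G : SF).continuousOn)
  have h4 : nrm (F + G : SF) ^ 2 ≤ (nrm F + nrm G) * nrm (F + G : SF) := by
    rw [h1, add_mul]; exact add_le_add h2 h3
  by_contra hcon
  push Not at hcon
  have h5 : 0 < nrm (F + G : SF) :=
    lt_of_le_of_lt (add_nonneg (nrm_nonneg _) (nrm_nonneg _)) hcon
  nlinarith

theorem nrm_le_const {g : ℍ → ℝ} (hg : ContinuousOn g {0}ᶜ) {M : ℝ}
    (hM : 0 ≤ M) (h : ∀ x : ℍ, x ≠ 0 → |g x| ≤ M) : nrm g ≤ M * nrm (fun _ => (1:ℝ)) := by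
  have := nrm_mul_le hg (f := fun _ => (1:ℝ)) continuousOn_const hM h
  simpa using this

/-- left derivatives commute with right multiplications -/
theorem DZ_rmul {F : SF} {q : ℍ} (hq : q ≠ 0) (hF : ∀ x : ℍ, F (x * q) = F x) (a : Fin 3)
    (x : ℍ) : (DZ a F) (x * q) = (DZ a F) x := by
  by_cases hx : x = 0
  · subst hx; simp
  have h1 := F.hasDerivAt_DZ a (x := x * q) (mul_ne_zero hx hq) 0
  have h2 := F.hasDerivAt_DZ a hx 0
  have e : (fun t => F (rot (qU a) t * (x * q))) = fun t => F (rot (qU a) t * x) := by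
    funext t
    rw [← mul_assoc, hF]
  rw [e] at h1
  have h3 := h1.unique h2
  simpa [rot_zero] using h3

theorem qI_ne : qI ≠ 0 := by
  intro h
  have := isImUnit_I.norm_eq
  simp [h] at this

theorem qK_ne : qK ≠ 0 := by
  intro h
  have := isImUnit_K.norm_eq
  simp [h] at this

theorem klein_DZ {F : SF} (hF : IsKlein F) (a : Fin 3) : IsKlein (DZ a F) where
  mulI := DZ_rmul qI_ne hF.mulI a
  mulK := DZ_rmul qK_ne hF.mulK a

theorem isU_DZ {F : SF} (hF : IsU F) (a : Fin 3) : IsU (DZ a F) where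
  rotI := fun x t => DZ_rmul (rot_ne_zero isImUnit_I t) (fun x => hF.rotI x t) a x
  mulK := DZ_rmul qK_ne hF.mulK a

theorem klein_wordZ {F : SF} (hF : IsKlein F) (l : List (Fin 3)) : IsKlein (wordZ l F) := by
  induction l with
  | nil => exact hF
  | cons a l ih => exact klein_DZ ih a

theorem isU_wordZ {F : SF} (hF : IsU F) (l : List (Fin 3)) : IsU (wordZ l F) := by
  induction l with
  | nil => exact hF
  | cons a l ih => exact isU_DZ ih a

/-- letters of left words -/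
def lz : Fin 3 → Fin 6 := ![3, 4, 5]

theorem Dlet_lz (a : Fin 3) : Dlet (lz a) = DZ a := by
  fin_cases a <;> rfl

theorem wordZ_eq (l : List (Fin 3)) (F : SF) : wordZ l F = word (l.map lz) F := by
  induction l with
  | nil => rfl
  | cons a l ih =>
    show DZ a (wordZ l F) = Dlet (lz a) (word (l.map lz) F)
    rw [Dlet_lz, ih]

theorem DV_of_isU {F : SF} (hF : IsU F) : DV F = 0 := by
  apply ext'
  intro x hx
  have h1 := F.hasDerivAt_DV hx 0
  have e : (fun t => F (x * rot qI t)) = fun _ => F x := by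
    funext t; exact hF.rotI x t
  rw [e] at h1
  have h2 := h1.unique (hasDerivAt_const 0 _)
  rw [zero_apply]
  simpa [rot_zero] using h2

/-- Pestov's bound for a product of a Klein-invariant function and a u-function -/
theorem pest_mul (hP : PestStatement) {n : ℕ} {η : SF} (hη : η ∈ UN n) {g h : SF}
    (hg : IsKlein g) (hh : IsU h) {B : ℝ} (hB : 0 ≤ B) (h1 : ∀ x : ℍ, |g x| ≤ B)
    (h2 : ∀ x : ℍ, |(DV g) x| ≤ B) :
    |ip (g * h : SF) (psi η)| ≤ 2 * B * nrm h * nrm η := by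
  have e0 : ((g * h : SF) : ℍ → ℝ) = fun x => g x * h x := funext fun x => mul_apply g h x
  have h3 := hP n η hη (fun x => g x * h x) (fun x => (DV g) x * h x)
    (cts_mul (cts_SF g) (cts_SF h)) (cts_mul (cts_SF _) (cts_SF h))
    (isKlein_mul hg (isKlein_of_isU hh))
    (by
      intro x hx t
      have h1 := (g.hasDerivAt_DV hx t).mul_const (h x)
      simpa only [hh.rotI] using h1)
  rw [e0]
  have h4 : nrm (fun x => g x * h x) ≤ B * nrm h :=
    nrm_mul_le g.continuousOn h.continuousOn hB fun x _ => h1 x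
  have h5 : nrm (fun x => (DV g) x * h x) ≤ B * nrm h :=
    nrm_mul_le (DV g).continuousOn h.continuousOn hB fun x _ => h2 x
  refine h3.trans ?_
  have h6 := nrm_nonneg η
  nlinarith

/-- the pairing as a linear map -/
noncomputable def ipL (ψ : SF) : SF →ₗ[ℝ] ℝ where
  toFun F := ip F ψ
  map_add' F G := ip_add_left F G ψ
  map_smul' c F := by simpa using ip_smul_left c F ψ

theorem ipL_apply (ψ F : SF) : ipL ψ F = ip F ψ := rfl

theorem Lap_sum (F : SF) : Lap F = ∑ a : Fin 3, wordZ [a, a] F := by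
  rw [Lap_eq, Fin.sum_univ_three]
  rfl

theorem DZ_sum (a : Fin 3) (f : Fin 3 → SF) : DZ a (∑ b, f b) = ∑ b, DZ a (f b) := map_sum _ _ _

theorem Lap_Lap_sum (F : SF) : Lap (Lap F) = ∑ b : Fin 3, ∑ a : Fin 3, wordZ [b, b, a, a] F := by
  rw [Lap_sum (Lap F)]
  apply Finset.sum_congr rfl
  intro b _
  rw [Lap_sum F]
  show DZ b (DZ b (∑ a, wordZ [a, a] F)) = _
  rw [DZ_sum, DZ_sum]
  rfl

/-- the remainder of the Leibniz rule for two second order operators -/
noncomputable def rem (w y : SF) (a b : Fin 3) : SF :=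
  wordZ [b, b, a, a] w * wordZ [] y + (2:ℝ) • (wordZ [b, a, a] w * wordZ [b] y)
    + wordZ [a, a] w * wordZ [b, b] y + (2:ℝ) • (wordZ [b, b, a] w * wordZ [a] y)
    + (4:ℝ) • (wordZ [b, a] w * wordZ [b, a] y) + (2:ℝ) • (wordZ [a] w * wordZ [b, b, a] y)
    + wordZ [b, b] w * wordZ [a, a] y + (2:ℝ) • (wordZ [b] w * wordZ [b, a, a] y)

theorem leib (w y : SF) (a b : Fin 3) :
    wordZ [b, b, a, a] (w * y) = w * wordZ [b, b, a, a] y + rem w y a b := by
  have e2 : ∀ F : SF, (2:ℝ) • F = F + F := fun F => two_smul ℝ F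
  have e4 : ∀ F : SF, (4:ℝ) • F = (F + F) + (F + F) := fun F => by
    rw [← e2, ← e2, smul_smul]; norm_num
  simp only [rem, e2, e4]
  show DZ b (DZ b (DZ a (DZ a (w * y)))) = w * DZ b (DZ b (DZ a (DZ a y))) +
    (DZ b (DZ b (DZ a (DZ a w))) * y + (DZ b (DZ a (DZ a w)) * DZ b y +
      DZ b (DZ a (DZ a w)) * DZ b y) + DZ a (DZ a w) * DZ b (DZ b y)
      + (DZ b (DZ b (DZ a w)) * DZ a y + DZ b (DZ b (DZ a w)) * DZ a y)
      + (DZ b (DZ a w) * DZ b (DZ a y) + DZ b (DZ a w) * DZ b (DZ a y)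
        + (DZ b (DZ a w) * DZ b (DZ a y) + DZ b (DZ a w) * DZ b (DZ a y)))
      + (DZ a w * DZ b (DZ b (DZ a y)) + DZ a w * DZ b (DZ b (DZ a y)))
      + DZ b (DZ b w) * DZ a (DZ a y)
      + (DZ b w * DZ b (DZ a (DZ a y)) + DZ b w * DZ b (DZ a (DZ a y))))
  simp only [Derivation.leibniz, smul_eq_mul, map_add]
  ring

theorem Lap_Lap_mul (w y : SF) :
    Lap (Lap (w * y)) = w * Lap (Lap y) + ∑ b : Fin 3, ∑ a : Fin 3, rem w y a b := by
  rw [Lap_Lap_sum, Lap_Lap_sum y, Finset.mul_sum, ← Finset.sum_add_distrib]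
  apply Finset.sum_congr rfl
  intro b _
  rw [Finset.mul_sum, ← Finset.sum_add_distrib]
  apply Finset.sum_congr rfl
  intro a _
  exact leib w y a b

theorem abs_ipL_rem {ψ w y : SF} {T : ℝ}
    (h : ∀ l₁ l₂ : List (Fin 3), l₁.length ≤ 4 → l₂.length ≤ 3 →
      |ip (wordZ l₁ w * wordZ l₂ y : SF) ψ| ≤ T) (a b : Fin 3) :
    |ipL ψ (rem w y a b)| ≤ 15 * T := by
  simp only [rem, map_add, map_smul, smul_eq_mul, ipL_apply]
  have h1 := h [b, b, a, a] [] (by simp) (by simp)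
  have h2 := h [b, a, a] [b] (by simp) (by simp)
  have h3 := h [a, a] [b, b] (by simp) (by simp)
  have h4 := h [b, b, a] [a] (by simp) (by simp)
  have h5 := h [b, a] [b, a] (by simp) (by simp)
  have h6 := h [a] [b, b, a] (by simp) (by simp)
  have h7 := h [b, b] [a, a] (by simp) (by simp)
  have h8 := h [b] [b, a, a] (by simp) (by simp)
  rw [abs_le] at *
  constructor <;> linarith [h1.1, h1.2, h2.1, h2.2, h3.1, h3.2, h4.1, h4.2, h5.1, h5.2, h6.1, h6.2,
    h7.1, h7.2, h8.1, h8.2]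

theorem abs_ipL_sum_rem {ψ w y : SF} {T : ℝ}
    (h : ∀ l₁ l₂ : List (Fin 3), l₁.length ≤ 4 → l₂.length ≤ 3 →
      |ip (wordZ l₁ w * wordZ l₂ y : SF) ψ| ≤ T) :
    |ipL ψ (∑ b : Fin 3, ∑ a : Fin 3, rem w y a b)| ≤ 135 * T := by
  rw [map_sum]
  calc |∑ b : Fin 3, ipL ψ (∑ a : Fin 3, rem w y a b)|
      ≤ ∑ b : Fin 3, |ipL ψ (∑ a : Fin 3, rem w y a b)| := Finset.abs_sum_le_sum_abs _ _
    _ ≤ ∑ b : Fin 3, (45 * T) := by
        apply Finset.sum_le_sum
        intro b _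
        rw [map_sum]
        calc |∑ a : Fin 3, ipL ψ (rem w y a b)| ≤ ∑ a : Fin 3, |ipL ψ (rem w y a b)| :=
              Finset.abs_sum_le_sum_abs _ _
          _ ≤ ∑ a : Fin 3, 15 * T := Finset.sum_le_sum fun a _ => abs_ipL_rem h a b
          _ = 45 * T := by simp; ring
    _ = 135 * T := by simp; ring

theorem abs_sum_le_three {f : Fin 3 → SF} {E : ℝ} (h : ∀ a, nrm (f a) ≤ E) :
    nrm (∑ a, f a : SF) ≤ 3 * E := by
  rw [Fin.sum_univ_three]
  have h1 := nrm_add_le (f 0 + f 1) (f 2)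
  have h2 := nrm_add_le (f 0) (f 1)
  linarith [h 0, h 1, h 2]

theorem DV_DZ_word (l : List (Fin 3)) (F : SF) : DV (wordZ l F) = word (1 :: l.map lz) F := by
  rw [wordZ_eq]
  rfl

theorem abs_quad {c P Q nf t : ℝ} (hc : 0 < c) (hP : 0 ≤ P) (hQ : 0 ≤ Q) (hnf : 0 ≤ nf)
    (ht : 0 ≤ t) (h : c / 2 * nf ^ 2 ≤ P * nf * t + Q * t ^ 2) :
    nf ≤ ((2 / c) * (P + Q) + 1) * t := by
  by_contra hcon
  push Not at hcon
  set C := (2 / c) * (P + Q) + 1 with hC
  have hC1 : 1 ≤ C := by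
    have : 0 ≤ (2 / c) * (P + Q) := by positivity
    linarith
  have h1 : t ≤ nf := by nlinarith
  have h2 : 0 < nf := lt_of_le_of_lt (by positivity) hcon
  have h3 : c / 2 * nf ^ 2 ≤ (P + Q) * nf * t := by nlinarith [mul_nonneg hQ ht]
  have h4 : c / 2 * nf ≤ (P + Q) * t := by
    have : c / 2 * nf * nf ≤ (P + Q) * t * nf := by nlinarith
    exact le_of_mul_le_mul_right this h2
  have h5 : nf ≤ (2 / c) * (P + Q) * t := by
    have e : nf = (2 / c) * (c / 2 * nf) := by field_simp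
    rw [e, mul_assoc]
    gcongr
  have h6 : nf ≤ C * t := by rw [hC]; nlinarith
  linarith

theorem linen_of (hG : GardStatement) (hP : PestStatement) (hN : NormFacts) (hPsi : PsiFacts)
    (hC : CasFacts) : LinenStatement := by
  intro c₀ B hc₀
  obtain ⟨c, hc, A, hA⟩ := hG c₀ B hc₀
  set A0 : ℝ := |A| with hA0
  have hA00 : 0 ≤ A0 := abs_nonneg _
  set B' : ℝ := |B| with hB'
  have hB'0 : 0 ≤ B' := abs_nonneg _
  set ε : ℝ := min 1 (c / (2 * (117 * A0 + 270 * B' + 1))) with hεd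
  have hε : 0 < ε := lt_min one_pos (by positivity)
  have hε1 : ε ≤ 1 := min_le_left _ _
  have hε2 : (117 * A0 + 270 * B') * ε ≤ c / 2 := by
    have h1 : ε ≤ c / (2 * (117 * A0 + 270 * B' + 1)) := min_le_right _ _
    rw [le_div_iff₀ (by positivity)] at h1
    nlinarith only [h1, hε]
  obtain ⟨C₂, hC₂⟩ := hN.interp ε hε
  set C₁ : ℝ := |C₂| with hC₁
  have hC₁0 : 0 ≤ C₁ := abs_nonneg _
  set V : ℝ := nrm (fun _ => (1:ℝ)) with hV
  have hV0 : 0 ≤ V := nrm_nonneg _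
  set P : ℝ := (9 * A0 + 270 * B') * C₁ + 18 * V with hPd
  set Q : ℝ := 108 * A0 * C₁ ^ 2 with hQd
  have hP0 : 0 ≤ P := by positivity
  have hQ0 : 0 ≤ Q := by positivity
  refine ⟨(2 / c) * (P + Q) + 1 + 1, ?_⟩
  intro w hwK hwpos hwB β b hbE hbB n y hy hweak
  have hB0 : 0 ≤ B := le_trans (abs_nonneg _) (hwB [] (by simp) 0)
  have hBB : B' = B := abs_of_nonneg hB0
  have hβ0 : 0 ≤ β := le_trans (abs_nonneg _) (hbB [] (by simp) 0)
  set f : SF := Lap (Lap y) with hf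
  have hχ : Lap y ∈ UN n := hPsi.lap_mem n y hy
  have hfU : f ∈ UN n := hPsi.lap_mem n _ hχ
  set nf := nrm f with hnf
  set ny := nrm y with hny
  have hnf0 : 0 ≤ nf := nrm_nonneg _
  have hny0 : 0 ≤ ny := nrm_nonneg _
  set E : ℝ := ε * nf + C₁ * ny with hE
  have hE0 : 0 ≤ E := by positivity
  have hword : ∀ l : List (Fin 6), l.length ≤ 3 → nrm (word l y) ≤ E := by
    intro l hl
    have h1 := hC₂ y l hl
    have h2 : C₂ * nrm y ≤ C₁ * ny := by
      apply mul_le_mul_of_nonneg_right (le_abs_self _) hny0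
    linarith
  have hwordZ : ∀ l : List (Fin 3), l.length ≤ 3 → nrm (wordZ l y) ≤ E := by
    intro l hl
    rw [wordZ_eq]
    exact hword _ (by simpa using hl)
  -- the norms of `Lap y`
  have hχn : nrm (Lap y) ≤ 3 * E := by
    rw [Lap_sum]
    exact abs_sum_le_three fun a => hwordZ [a, a] (by simp)
  have hχ1 : nrm1 (Lap y) ≤ 6 * E := by
    have h1 := hN.nrm1_sq (Lap y)
    have h2 : ∀ a : Fin 3, nrm (DZ a (Lap y)) ≤ 3 * E := by
      intro a
      rw [Lap_sum, DZ_sum]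
      exact abs_sum_le_three fun b => hwordZ [a, b, b] (by simp)
    have h3 : ∀ a : Fin 3, nrm (DZ a (Lap y)) ^ 2 ≤ 9 * E ^ 2 := by
      intro a
      have := pow_le_pow_left₀ (nrm_nonneg _) (h2 a) 2
      linarith
    have h4 : nrm1 (Lap y) ^ 2 ≤ (6 * E) ^ 2 := by
      rw [h1, Fin.sum_univ_three]
      nlinarith only [h3 0, h3 1, h3 2, sq_nonneg E]
    exact (pow_le_pow_iff_left₀ (nrm1_nonneg _) (by positivity) (by norm_num)).1 h4
  -- Garding
  have hgard := hA w hwK hwpos (fun l hl x => hwB l (by omega) x) n (Lap y) hχ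
  have hpsif : Lap (psi (Lap y)) = psi f := (hPsi.lap n _ hχ).symm
  rw [hpsif] at hgard
  have hwf : ∫ x in shell, w x * (Lap (Lap y)) x * (psi f) x = ipL (psi f) (w * f) := by
    rw [ipL_apply, ip]
    simp only [mul_apply]
    rfl
  rw [hwf] at hgard
  -- the equation
  have hψmem : Lap (Lap (psi f)) ∈ EN n := by
    rw [← hPsi.lap n f hfU, ← hPsi.lap n _ (hPsi.lap_mem n f hfU)]
    exact hPsi.mem n _ (hPsi.lap_mem n _ (hPsi.lap_mem n f hfU))
  have heq := hweak _ hψmem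
  have e1 : (fun x => w x * y x + b x) = ((w * y + b : SF) : ℍ → ℝ) := by
    funext x
    rw [add_apply, mul_apply]
  rw [e1, ← hC.symm, ← hC.symm, ← ipL_apply, map_add, map_add, map_add, Lap_Lap_mul, map_add,
    ← hf] at heq
  -- remainder
  have hrem := abs_ipL_sum_rem (ψ := psi f) (w := w) (y := y) (T := 2 * B * E * nf) (by
    intro l₁ l₂ h₁ h₂
    have h3 := pest_mul hP hfU (klein_wordZ hwK l₁) (isU_wordZ hy.2 l₂) hB0
      (fun x => by rw [wordZ_eq]; exact hwB _ (by simp; omega) x)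
      (fun x => by rw [DV_DZ_word]; exact hwB _ (by simp; omega) x)
    refine h3.trans ?_
    have h4 := hwordZ l₂ h₂
    gcongr)
  -- right-hand side
  have hbK : IsKlein b := by
    refine ⟨hbE.mulI, fun x => ?_⟩
    have := hbE.rotK x π
    rwa [rot_pi] at this
  have hLb : |ipL (psi f) (Lap (Lap b))| ≤ 18 * β * V * nf := by
    have hone : Lap (Lap b) = (1 : SF) * Lap (Lap b) := (one_mul _).symm
    have hK2 : IsKlein (Lap (Lap b)) := by
      have h1 : ∀ F : SF, IsKlein F → IsKlein (Lap F) := by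
        intro F hF
        rw [Lap_eq]
        have k0 := klein_DZ (klein_DZ hF 0) 0
        have k1 := klein_DZ (klein_DZ hF 1) 1
        have k2 := klein_DZ (klein_DZ hF 2) 2
        exact ⟨fun x => by simp only [add_apply, k0.mulI, k1.mulI, k2.mulI],
          fun x => by simp only [add_apply, k0.mulK, k1.mulK, k2.mulK]⟩
      exact h1 _ (h1 _ hbK)
    have hsum : ∀ (g : Fin 3 → Fin 3 → SF) (x : ℍ), (∀ i j, |(g i j) x| ≤ β) →
        |(∑ i, ∑ j, g i j : SF) x| ≤ 9 * β := by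
      intro g x hg
      rw [sum_apply]
      simp only [sum_apply]
      calc |∑ i, ∑ j, (g i j) x| ≤ ∑ i, |∑ j, (g i j) x| := Finset.abs_sum_le_sum_abs _ _
        _ ≤ ∑ i : Fin 3, ∑ j, |(g i j) x| :=
            Finset.sum_le_sum fun i _ => Finset.abs_sum_le_sum_abs _ _
        _ ≤ ∑ i : Fin 3, ∑ j : Fin 3, β :=
            Finset.sum_le_sum fun i _ => Finset.sum_le_sum fun j _ => hg i j
        _ = 9 * β := by simp; ring
    have hb1 : ∀ x : ℍ, x ≠ 0 → |(Lap (Lap b)) x| ≤ 9 * β := by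
      intro x _
      rw [Lap_Lap_sum]
      apply hsum
      intro i j
      rw [wordZ_eq]
      exact hbB _ (by simp) x
    have hb2 : ∀ x : ℍ, x ≠ 0 → |(DV (Lap (Lap b))) x| ≤ 9 * β := by
      intro x _
      rw [Lap_Lap_sum, map_sum]
      simp only [map_sum]
      apply hsum
      intro i j
      rw [DV_DZ_word]
      exact hbB _ (by simp) x
    have h3 := hP n f hfU (Lap (Lap b)) (DV (Lap (Lap b))) (cts_SF _) (cts_SF _) hK2
      (fun x hx t => (Lap (Lap b)).hasDerivAt_DV hx t)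
    have h4 := nrm_le_const (Lap (Lap b)).continuousOn (by positivity) hb1
    have h5 := nrm_le_const (DV (Lap (Lap b))).continuousOn (by positivity) hb2
    rw [ipL_apply]
    refine h3.trans ?_
    have : (nrm (Lap (Lap b)) + nrm (DV (Lap (Lap b)))) ≤ 18 * β * V := by linarith
    gcongr
  -- conclusion
  have hAR : A * (nf + nrm1 (Lap y)) * (nrm1 (Lap y) + nrm (Lap y))
      ≤ A0 * (9 * (nf * E) + 54 * E ^ 2) := by
    have h1 : A * (nf + nrm1 (Lap y)) * (nrm1 (Lap y) + nrm (Lap y))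
        ≤ A0 * ((nf + nrm1 (Lap y)) * (nrm1 (Lap y) + nrm (Lap y))) := by
      rw [mul_assoc]
      apply mul_le_mul_of_nonneg_right (le_abs_self _)
      exact mul_nonneg (add_nonneg hnf0 (nrm1_nonneg _)) (add_nonneg (nrm1_nonneg _) (nrm_nonneg _))
    have h2 : (nf + nrm1 (Lap y)) * (nrm1 (Lap y) + nrm (Lap y)) ≤ (nf + 6 * E) * (6 * E + 3 * E) := by
      apply mul_le_mul (by linarith) (by linarith)
        (add_nonneg (nrm1_nonneg _) (nrm_nonneg _)) (by positivity)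
    refine h1.trans ?_
    have h3 : (nf + 6 * E) * (6 * E + 3 * E) = 9 * (nf * E) + 54 * E ^ 2 := by ring
    rw [← h3]
    gcongr
  have hkey : c * nf ^ 2 ≤ A0 * (9 * (nf * E) + 54 * E ^ 2) + 270 * B * E * nf
      + 18 * β * V * nf := by
    have h1 := (abs_le.1 hrem).1
    have h2 := (abs_le.1 hLb).1
    rw [← hf, ← hnf] at hgard
    nlinarith only [hgard, hAR, heq, h1, h2]
  have hkey2 : c / 2 * nf ^ 2 ≤ P * nf * (ny + β) + Q * (ny + β) ^ 2 := by
    have e1 : nf * E = ε * nf ^ 2 + C₁ * (nf * ny) := by rw [hE]; ring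
    have e2 : E ^ 2 ≤ 2 * (ε * nf ^ 2) + 2 * (C₁ ^ 2 * ny ^ 2) := by
      have h1 : E ^ 2 ≤ 2 * (ε * nf) ^ 2 + 2 * (C₁ * ny) ^ 2 := by
        rw [hE]; nlinarith only [sq_nonneg (ε * nf - C₁ * ny)]
      have h2 : (ε * nf) ^ 2 ≤ ε * nf ^ 2 := by
        rw [mul_pow]
        apply mul_le_mul_of_nonneg_right _ (sq_nonneg _)
        nlinarith only [hε, hε1]
      calc E ^ 2 ≤ 2 * (ε * nf) ^ 2 + 2 * (C₁ * ny) ^ 2 := h1
        _ ≤ 2 * (ε * nf ^ 2) + 2 * (C₁ ^ 2 * ny ^ 2) := by rw [mul_pow C₁ ny]; linarith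
    have e3 : c * nf ^ 2 ≤ A0 * (9 * (ε * nf ^ 2 + C₁ * (nf * ny))
        + 54 * (2 * (ε * nf ^ 2) + 2 * (C₁ ^ 2 * ny ^ 2)))
        + 270 * B' * (ε * nf ^ 2 + C₁ * (nf * ny)) + 18 * β * V * nf := by
      rw [hBB, ← e1]
      have : A0 * (9 * (nf * E) + 54 * E ^ 2)
          ≤ A0 * (9 * (nf * E) + 54 * (2 * (ε * nf ^ 2) + 2 * (C₁ ^ 2 * ny ^ 2))) := by
        gcongr
      nlinarith only [this, hkey]
    have e4 : (117 * A0 + 270 * B') * ε * nf ^ 2 ≤ c / 2 * nf ^ 2 :=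
      mul_le_mul_of_nonneg_right hε2 (sq_nonneg _)
    have e5 : 0 ≤ nf * ny := mul_nonneg hnf0 hny0
    have e6 : 0 ≤ nf * β := mul_nonneg hnf0 hβ0
    have e7 : c / 2 * nf ^ 2 ≤ ((9 * A0 + 270 * B') * C₁) * (nf * ny) + 18 * V * (nf * β)
        + Q * ny ^ 2 := by
      rw [hQd]
      nlinarith only [e3, e4]
    have e8 : ny ^ 2 ≤ (ny + β) ^ 2 := by nlinarith only [mul_nonneg hny0 hβ0, sq_nonneg β]
    have e9 : Q * ny ^ 2 ≤ Q * (ny + β) ^ 2 := mul_le_mul_of_nonneg_left e8 hQ0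
    have e10 : ((9 * A0 + 270 * B') * C₁) * (nf * ny) + 18 * V * (nf * β) ≤ P * nf * (ny + β) := by
      rw [hPd]
      have k1 : 0 ≤ ((9 * A0 + 270 * B') * C₁) * (nf * β) := by positivity
      have k2 : 0 ≤ 18 * V * (nf * ny) := by positivity
      nlinarith only [k1, k2]
    linarith
  have hfin := abs_quad hc hP0 hQ0 hnf0 (add_nonneg hny0 hβ0) hkey2
  show nrm (Lap (Lap y)) + nrm y ≤ _
  rw [← hf, ← hnf, ← hny]
  nlinarith only [hfin, hβ0]

end Pool.Agent.MP85963d.H79
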